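import Pool.Agent.helper24.Row.Defs
import Pool.Agent.helper24.Row.Nilp
import Pool.Agent.helper24.Row.Mult
import Pool.Agent.helper24.Row.Space

/-!
# The row inequality does not imply Mult-contractivity

For all `d ≥ 2` and `N ≥ 2` let `H` be the reproducing kernel Hilbert space on the unit ball of
`ℂ^d` with kernel `(1 - ⟨z, w⟩)^{-N}` (for `N = d` the Hardy space, for `N = d + 1` the Bergman
space of the ball).  The commuting tuple `T_i e_0 = e_i`, `T_i e_j = 0` on `ℂ^{d+1}` satisfies the
row inequality, but the column `(z_1, ..., z_d)` has multiplier norm at most `√(d/2)`, while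
`‖(T_1, ..., T_d)^t‖ = √d`.
-/

namespace Pool.Agent.Results.MP_59d57e_an.RowNotMultContractive

open Pool.Agent.helper24.Row Finset
open scoped ComplexConjugate

variable {d : ℕ}

/-- The closed span of the kernel vectors. -/
noncomputable def HSub (d s : ℕ) : Submodule ℂ (LL d) :=
  (Submodule.span ℂ (Set.range (kvec (d := d) s))).topologicalClosure

/-- The space. -/
abbrev HH (d s : ℕ) : Type := ↥(HSub d s)

instance (d s : ℕ) : CompleteSpace (HH d s) :=
  (Submodule.isClosed_topologicalClosure _).completeSpace_coe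

theorem kvec_mem (s : ℕ) (z : BB d) : kvec s z ∈ HSub d s :=
  Submodule.le_topologicalClosure _ (Submodule.subset_span ⟨z, rfl⟩)

noncomputable instance instRK (d s : ℕ) : RKHS ℂ (HH d s) (BB d) ℂ where
  coeCLM := ContinuousLinearMap.pi fun z => (innerSL ℂ (kvec s z)).comp (HSub d s).subtypeL
  coeCLM_injective := by
    rw [injective_iff_map_eq_zero]
    intro f hf
    have h1 : ∀ z, inner ℂ (kvec s z) (f : LL d) = 0 := fun z => congrFun hf z
    have h2 : (f : LL d) ∈ (HSub d s)ᗮ := by
      change (f : LL d) ∈ ((Submodule.span ℂ (Set.range (kvec (d := d) s))).topologicalClosure)ᗮ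
      rw [Submodule.orthogonal_closure, Submodule.mem_orthogonal]
      intro u hu
      induction hu using Submodule.span_induction with
      | mem x hx => obtain ⟨z, rfl⟩ := hx; exact h1 z
      | zero => simp
      | add x y _ _ hx hy => rw [inner_add_left, hx, hy, add_zero]
      | smul c x _ hx => rw [inner_smul_left, hx, mul_zero]
    have h3 : inner ℂ (f : LL d) (f : LL d) = 0 := h2 _ f.2
    exact Subtype.ext (inner_self_eq_zero.1 h3)

theorem coe_eq (s : ℕ) (f : HH d s) (z : BB d) : f z = inner ℂ (kvec s z) (f : LL d) := rfl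

theorem kerFun_eq (s : ℕ) (z : BB d) (v : ℂ) :
    RKHS.kerFun (HH d s) z v = v • (⟨kvec s z, kvec_mem s z⟩ : HH d s) := by
  refine ext_inner_right ℂ fun f => ?_
  rw [RKHS.kerFun_inner, Submodule.coe_inner, Submodule.coe_smul, inner_smul_left, coe_eq]
  simp only [RCLike.inner_apply]
  ring

/-- Multiplication by the coordinate functions. -/
noncomputable def Mz (s : ℕ) (i : Fin d) : HH d s →L[ℂ] HH d s :=
  (HSub d s).orthogonalProjectionOnto ∘L (Sh s i ∘L (HSub d s).subtypeL)

theorem Mz_apply (s : ℕ) (i : Fin d) (f : HH d s) (z : BB d) :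
    (Mz s i f) z = (z : EuclideanSpace ℂ (Fin d)) i * f z := by
  rw [coe_eq, coe_eq, ← Sh_inner]
  exact Submodule.inner_orthogonalProjectionOnto_eq_of_mem_left (K := HSub d s)
    (⟨kvec s z, kvec_mem s z⟩ : HH d s) (Sh s i (f : LL d))

theorem Mz_norm_le (s : ℕ) (i : Fin d) (f : HH d s) : ‖Mz s i f‖ ≤ ‖Sh s i (f : LL d)‖ :=
  Submodule.norm_orthogonalProjectionOnto_apply_le (HSub d s) (Sh s i (f : LL d))

theorem Mz_sum_le (s : ℕ) (hs : 1 ≤ s) (hd : 2 ≤ d) (f : HH d s) :
    ∑ i, ‖Mz s i f‖ ^ 2 ≤ (d : ℝ) / 2 * ‖f‖ ^ 2 := by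
  refine le_trans (Finset.sum_le_sum fun i _ => ?_) (Sh_sum_le s hs hd (f : LL d))
  have := Mz_norm_le s i f
  gcongr

theorem kernel_eq (s : ℕ) : HasKernel (HH d s) (ballKernel d (s + 1)) := by
  intro z w
  rw [← RKHS.kerFun_apply, kerFun_eq, one_smul, coe_eq, kvec_inner, ballKernel]
  simp only [PiLp.inner_apply, RCLike.inner_apply]

theorem kerFun_ne_zero (s : ℕ) (z : BB d) : RKHS.kerFun (HH d s) z (1 : ℂ) ≠ 0 := by
  rw [kerFun_eq, one_smul]
  intro h
  have h0 : kvec s z = 0 := congrArg Subtype.val h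
  have h1 := kvec_inner s z z
  rw [h0, inner_zero_left] at h1
  have h2 := sum_lt_one z
  have h8 : inner ℂ (z : EuclideanSpace ℂ (Fin d)) (z : EuclideanSpace ℂ (Fin d))
      = ((∑ i, ‖(z : EuclideanSpace ℂ (Fin d)) i‖ ^ 2 : ℝ) : ℂ) := by
    rw [PiLp.inner_apply]
    push_cast
    refine Finset.sum_congr rfl fun i _ => ?_
    rw [RCLike.inner_apply, Complex.mul_conj']
  have h3 : (1 - inner ℂ (z : EuclideanSpace ℂ (Fin d)) (z : EuclideanSpace ℂ (Fin d))) ≠ 0 := by
    rw [h8]
    intro h4
    have h5 : ((1 - ∑ i, ‖(z : EuclideanSpace ℂ (Fin d)) i‖ ^ 2 : ℝ) : ℂ) = 0 := by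
      push_cast
      push_cast at h4
      exact h4
    have h6 := Complex.ofReal_eq_zero.1 h5
    linarith
  exact one_div_ne_zero (pow_ne_zero _ h3) h1.symm

/-- The square matrix polynomial with first column `(z_1, ..., z_d)` and zeros elsewhere. -/
noncomputable def colP (d : ℕ) : Matrix (Fin d) (Fin d) (Pol d) :=
  fun i j => if (j : ℕ) = 0 then MvPolynomial.X i else 0

theorem opEval_TT_X (i : Fin d) : opEval (TT d) (MvPolynomial.X i) = TT d i := by
  classical
  rw [opEval_TT]
  have h0 : MvPolynomial.coeff 0 (MvPolynomial.X i : MvPolynomial (Fin d) ℂ) = 0 := by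
    rw [MvPolynomial.coeff_zero_X]
  have h1 : ∀ j, MvPolynomial.coeff (Finsupp.single j 1) (MvPolynomial.X i : MvPolynomial (Fin d) ℂ)
      = if i = j then 1 else 0 := by
    intro j
    rw [MvPolynomial.coeff_X]
    by_cases h : i = j
    · subst h; simp
    · rw [if_neg, if_neg h]
      intro h'
      exact h ((Finsupp.single_left_inj one_ne_zero).1 h')
  ext x k
  rw [h0, add_apply, smul_apply, _root_.sum_apply, PiLp.add_apply, PiLp.smul_apply,
    zero_smul, zero_add, WithLp.ofLp_sum, Finset.sum_apply, Finset.sum_eq_single i]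
  · rw [h1, if_pos rfl, smul_apply, one_smul]
  · intro j _ hj
    rw [h1, if_neg (Ne.symm hj), smul_apply, PiLp.smul_apply, zero_smul]
  · simp

theorem not_opBound_TT (hd : 2 ≤ d) {C : ℝ} (hC : OpBound (TT d) (colP d) C) :
    (d : ℝ) ≤ C ^ 2 := by
  classical
  set j0 : Fin d := ⟨0, by omega⟩ with hj0
  set x : Fin d → EE d := Pi.single j0 (EuclideanSpace.single 0 (1 : ℂ)) with hx
  have hx1 : ∑ j, ‖x j‖ ^ 2 = 1 := by
    rw [Finset.sum_eq_single j0]
    · simp [hx]
    · intro j _ hj
      simp [hx, hj]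
    · simp
  have hval : ∀ i, ∑ j, opEval (TT d) (colP d i j) (x j) = EuclideanSpace.single i.succ (1 : ℂ) := by
    intro i
    rw [Finset.sum_eq_single j0]
    · simp only [colP, hj0, if_true]
      rw [opEval_TT_X, TT_apply]
      simp [hx, hj0]
    · intro j _ hj
      have : x j = 0 := by simp [hx, hj]
      rw [this, map_zero]
    · simp
  have h := hC.2 x
  rw [hx1, mul_one] at h
  simp_rw [hval] at h
  simpa using h

theorem opEval_Mz_X (s : ℕ) (i : Fin d) (f : HH d s) :
    opEval (Mz s) (MvPolynomial.X i) f = Mz s i f := by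
  refine RKHS.ext fun z => ?_
  rw [opEval_apply (fun i f z => Mz_apply s i f z), Mz_apply, MvPolynomial.eval_X]

theorem multBound_col (s : ℕ) (hs : 1 ≤ s) (hd : 2 ≤ d) :
    MultBound (Ω := BB d) (HH d s) (colP d) (Real.sqrt ((d : ℝ) / 2)) := by
  set j0 : Fin d := ⟨0, by omega⟩ with hj0
  refine ⟨Real.sqrt_nonneg _, fun f => ⟨fun i => Mz s i (f j0), fun i z => ?_, ?_⟩⟩
  · rw [Mz_apply, Finset.sum_eq_single j0]
    · simp [colP, hj0]
    · intro j _ hj
      have hj' : (j : ℕ) ≠ 0 := fun h => hj (Fin.ext h)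
      simp [colP, if_neg hj']
    · simp
  · rw [Real.sq_sqrt (by positivity)]
    refine (Mz_sum_le s hs hd (f j0)).trans ?_
    have h4 : ‖f j0‖ ^ 2 ≤ ∑ j, ‖f j‖ ^ 2 :=
      Finset.single_le_sum (f := fun j => ‖f j‖ ^ 2) (fun j _ => by positivity)
        (Finset.mem_univ j0)
    gcongr

/-- Row inequality for the nilpotent tuple. -/
theorem row_ineq (s : ℕ) : RowInequality (Ω := BB d) (HH d s) (TT d) := by
  intro m _ P C hM
  apply row_TT P C hM.1
  -- extend the bound from the open to the closed ball by continuity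
  have hcont : Continuous fun z : EuclideanSpace ℂ (Fin d) =>
      ∑ k, ‖MvPolynomial.eval z (P 0 k)‖ ^ 2 := by
    refine continuous_finsetSum _ fun k _ => ?_
    refine (Continuous.norm ?_).pow 2
    exact (MvPolynomial.continuous_eval (P 0 k)).comp (PiLp.continuous_ofLp 2 _)
  have hclosed : IsClosed {z : EuclideanSpace ℂ (Fin d) |
      ∑ k, ‖MvPolynomial.eval z (P 0 k)‖ ^ 2 ≤ C ^ 2} := isClosed_le hcont continuous_const
  have hsub : (BB d) ⊆ {z : EuclideanSpace ℂ (Fin d) |
      ∑ k, ‖MvPolynomial.eval z (P 0 k)‖ ^ 2 ≤ C ^ 2} :=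
    fun z hz => sup_le_mult hM ⟨z, hz⟩ (kerFun_ne_zero s _)
  intro z hz
  have hmem : z ∈ closure (BB d) := by
    rw [closure_ball _ one_ne_zero]
    simpa using hz
  exact (hclosed.closure_subset_iff.2 hsub) hmem

/-- **The row inequality does not imply `Mult(H)`-contractivity.** -/
theorem result (d N : ℕ) (hd : 2 ≤ d) (hN : 2 ≤ N) :
    ∃ (H : Type) (_ : NormedAddCommGroup H) (_ : InnerProductSpace ℂ H) (_ : CompleteSpace H)
      (_ : RKHS ℂ H (BB d) ℂ),
      HasKernel H (ballKernel d N) ∧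
      (∀ (p m : ℕ) (P : Matrix (Fin p) (Fin m) (Pol d)), ∃ C, MultBound (Ω := BB d) H P C) ∧
      ∃ (E : Type) (_ : NormedAddCommGroup E) (_ : InnerProductSpace ℂ E) (_ : CompleteSpace E)
        (T : Fin d → E →L[ℂ] E), Module.finrank ℂ E = d + 1 ∧ IsCommuting T ∧
          RowInequality (Ω := BB d) H T ∧ ¬ MultContractive (Ω := BB d) H T := by
  obtain ⟨s, rfl⟩ : ∃ s, N = s + 1 := ⟨N - 1, by omega⟩
  have hs : 1 ≤ s := by omega
  refine ⟨HH d s, inferInstance, inferInstance, inferInstance, instRK d s, kernel_eq s,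
    fun p m P => exists_multBound (fun i f z => Mz_apply s i f z) P, EE d, inferInstance,
    inferInstance, inferInstance, TT d, by simp, fun i j x => ?_, row_ineq s, ?_⟩
  · have := congrArg (fun A : EE d →L[ℂ] EE d => A x) (TT_comm i j)
    exact this
  · intro hcon
    have h := hcon d (by omega) (colP d) _ (multBound_col s hs hd)
    have h1 := not_opBound_TT hd h
    rw [Real.sq_sqrt (by positivity)] at h1
    have h4 : (0 : ℝ) < d := by
      have : 0 < d := by omega
      exact_mod_cast this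
    linarith

end Pool.Agent.Results.MP_59d57e_an.RowNotMultContractive
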